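import Pool.Agent.H480Z.MonsterAux

set_option autoImplicit false

namespace Pool.Agent.Results.MP_af453c_al.OutRaag

open MeasureTheory Pool.Agent.H480Z.Monster

/-- Gromov's random monster group (labels in `T ^ j`, finite connected `d`-regular graphs) is
super-rigid with respect to the outer automorphism group of every right-angled Artin group. -/
theorem result (d k j : ℕ) (hd : 3 ≤ d) (hk : 2 ≤ k) (hj : 1 ≤ j)
    (V : ℕ → Type) [∀ n, Finite (V n)] (Ω : ∀ n, SimpleGraph (V n))
    (hconn : ∀ n, (Ω n).Connected) (hdeg : ∀ n v, ((Ω n).neighborSet v).ncard = d)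
    (W : Type) [Finite W] (Λ : SimpleGraph W) :
    ∀ᵐ α ∂(labelMeasure (prodLabels k j hk) Ω :
        Measure (∀ n, Labelling (prodLabels k j hk) (Ω n))),
      ∀ φ : monsterGroup α →* Out (Raag Λ), Finite φ.range :=
  have := countable_out_raag Λ
  superrigid (spread_prod hk hj)
    (infinite_cyc_of_degree hconn fun n v => (hdeg n v).symm ▸ le_trans (by norm_num) hd) _

end Pool.Agent.Results.MP_af453c_al.OutRaag
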